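import Pool.Agent.Helper84.F36693.Proof

open Pool.Agent.Helper84.F36693

namespace Pool.Agent.Results.MP_f36693_lc.NegAnswer

/-- **Negative answer to the question.** There is a set `D` of natural numbers with
`deg D ≤ 0^(ω)` such that no complete theory (in any computable signature) whose set of Goedel
numbers has Turing degree `deg D` possesses a computable model. -/
theorem result : ∃ D : Set ℕ, degOf D ≤ degOf zeroOmega ∧
    ∀ (S : Sig) (T : S.lang.Theory), T.IsMaximal → HasComputableModel S T →
      degOf (theoryCodes S T) ≠ degOf D := main

end Pool.Agent.Results.MP_f36693_lc.NegAnswer
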